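import Mathlib

/-!
# Continuous logarithms on spheres
-/

set_option autoImplicit false

open Set Topology

namespace Pool.Agent.Helper19.NS

/-- nonvanishing continuous complex functions have continuous logarithms -/
def HasLog (X : Type) [TopologicalSpace X] : Prop :=
  ∀ f : C(X, ℂ), (∀ x, f x ≠ 0) → ∃ g : C(X, ℂ), ∀ x, Complex.exp (g x) = f x

theorem HasLog.of_homeo {X Y : Type} [TopologicalSpace X] [TopologicalSpace Y] (e : X ≃ₜ Y)
    (h : HasLog Y) : HasLog X := by
  intro f hf
  obtain ⟨g, hg⟩ := h (f.comp ⟨e.symm, e.symm.continuous⟩) (fun y => hf _)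
  exact ⟨g.comp ⟨e, e.continuous⟩, fun x => by simpa using hg (e x)⟩

/-- two logarithms of the same function which agree at a point are equal -/
theorem log_unique {X : Type} [TopologicalSpace X] [PreconnectedSpace X] {g h : X → ℂ}
    (hg : Continuous g) (hh : Continuous h) (he : ∀ x, Complex.exp (g x) = Complex.exp (h x))
    (x₀ : X) (h0 : g x₀ = h x₀) : g = h := by
  refine Complex.isCoveringMap_exp.eq_of_comp_eq hg hh ?_ x₀ h0
  funext x
  exact Subtype.ext (he x)

theorem hasLog_of_contractible {X : Type} [TopologicalSpace X] [ContractibleSpace X] :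
    HasLog X := by
  intro f hf
  let f' : C(X, {z : ℂ // z ≠ 0}) := ⟨fun x => ⟨f x, hf x⟩, by fun_prop⟩
  obtain ⟨x0, ⟨H⟩⟩ := id_nullhomotopic X
  let K : C(unitInterval × X, {z : ℂ // z ≠ 0}) := f'.comp H.symm.toContinuousMap
  obtain ⟨w, hw⟩ : ∃ w, Complex.exp w = f x0 := ⟨Complex.log (f x0), Complex.exp_log (hf x0)⟩
  have H0 : ∀ a, K (0, a) = (fun z : ℂ => (⟨_, z.exp_ne_zero⟩ : {z : ℂ // z ≠ 0}))
      ((ContinuousMap.const X w) a) := by
    intro a
    apply Subtype.ext
    change f (H.symm (0, a)) = Complex.exp w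
    rw [hw, H.symm.apply_zero]
    rfl
  let L := Complex.isCoveringMap_exp.liftHomotopy K (ContinuousMap.const X w) H0
  refine ⟨⟨fun x => L (1, x), by fun_prop⟩, fun x => ?_⟩
  have h1 := congrFun (Complex.isCoveringMap_exp.liftHomotopy_lifts K (ContinuousMap.const X w) H0)
    (1, x)
  have h2 := congrArg Subtype.val h1
  change Complex.exp (L (1, x)) = f (H.symm (1, x)) at h2
  rw [H.symm.apply_one] at h2
  exact h2

/-- gluing logarithms -/
theorem hasLog_union {X : Type} [TopologicalSpace X] (U V : Set X) (hU : IsOpen U) (hV : IsOpen V)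
    (hUV : U ∪ V = univ) (hc : IsPreconnected (U ∩ V)) (p : X) (hp : p ∈ U ∩ V)
    (h1 : HasLog U) (h2 : HasLog V) : HasLog X := by
  intro f hf
  obtain ⟨g₁, hg₁⟩ := h1 (f.restrict U) (fun x => hf _)
  obtain ⟨g₂, hg₂⟩ := h2 (f.restrict V) (fun x => hf _)
  let c : ℂ := g₁ ⟨p, hp.1⟩ - g₂ ⟨p, hp.2⟩
  have hce : Complex.exp c = 1 := by
    simp only [c]
    rw [Complex.exp_sub, hg₁, hg₂]
    exact div_self (hf p)
  have : PreconnectedSpace ↥(U ∩ V) := isPreconnected_iff_preconnectedSpace.1 hc
  have key : ∀ x (hx : x ∈ U ∩ V), g₁ ⟨x, hx.1⟩ = g₂ ⟨x, hx.2⟩ + c := by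
    intro x hx
    have h3 := log_unique (X := ↥(U ∩ V)) (g := fun y => g₁ ⟨y, y.2.1⟩)
      (h := fun y => g₂ ⟨y, y.2.2⟩ + c) (by fun_prop) (by fun_prop) (by
        intro y
        rw [Complex.exp_add, hce, mul_one, hg₁, hg₂]
        rfl) ⟨p, hp⟩ (by simp only [c]; ring)
    exact congrFun h3 ⟨x, hx⟩
  let φ : ∀ i : Bool, C((if i then U else V : Set X), ℂ) := fun i => match i with
    | true => g₁
    | false => g₂ + ContinuousMap.const _ c
  have hS : ∀ x : X, ∃ i : Bool, (if i then U else V : Set X) ∈ 𝓝 x := by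
    intro x
    have hx : x ∈ U ∪ V := by rw [hUV]; trivial
    rcases hx with hx | hx
    · exact ⟨true, hU.mem_nhds hx⟩
    · exact ⟨false, hV.mem_nhds hx⟩
  have hφ : ∀ (i j : Bool) (x : X) (hxi : x ∈ (if i then U else V : Set X))
      (hxj : x ∈ (if j then U else V : Set X)), φ i ⟨x, hxi⟩ = φ j ⟨x, hxj⟩ := by
    intro i j x hxi hxj
    cases i <;> cases j
    · rfl
    · exact (key x ⟨hxj, hxi⟩).symm
    · exact key x ⟨hxi, hxj⟩
    · rfl
  refine ⟨ContinuousMap.liftCover (fun i : Bool => (if i then U else V : Set X)) φ hφ hS,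
    fun x => ?_⟩
  have hx : x ∈ U ∪ V := by rw [hUV]; trivial
  rcases hx with hx | hx
  · have h4 := ContinuousMap.liftCover_coe (S := fun i : Bool => (if i then U else V : Set X))
      (φ := φ) (hφ := hφ) (hS := hS) (i := true) ⟨x, hx⟩
    rw [h4]
    exact hg₁ ⟨x, hx⟩
  · have h4 := ContinuousMap.liftCover_coe (S := fun i : Bool => (if i then U else V : Set X))
      (φ := φ) (hφ := hφ) (hS := hS) (i := false) ⟨x, hx⟩
    rw [h4]
    change Complex.exp (g₂ ⟨x, hx⟩ + c) = f x
    rw [Complex.exp_add, hce, mul_one]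
    exact hg₂ ⟨x, hx⟩

section sphere

variable {E : Type} [NormedAddCommGroup E] [InnerProductSpace ℝ E]

theorem hasLog_compl (v : Metric.sphere (0 : E) 1) :
    HasLog ({v}ᶜ : Set (Metric.sphere (0 : E) 1)) := by
  let e := stereographic (norm_eq_of_mem_sphere v)
  have hs : e.source = {v}ᶜ := stereographic_source _
  have ht : e.target = univ := stereographic_target _
  have h1 : HasLog (ℝ ∙ (v : E))ᗮ := hasLog_of_contractible
  have e1 : ({v}ᶜ : Set (Metric.sphere (0 : E) 1)) ≃ₜ e.source := Homeomorph.setCongr hs.symm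
  have e2 : e.source ≃ₜ e.target := e.toHomeomorphSourceTarget
  have e3 : e.target ≃ₜ (univ : Set (ℝ ∙ (v : E))ᗮ) := Homeomorph.setCongr ht
  exact h1.of_homeo (((e1.trans e2).trans e3).trans (Homeomorph.Set.univ _))

/-- nonvanishing functions on spheres of dimension at least two have logarithms -/
theorem hasLog_sphere (k : ℕ) (hk : 2 ≤ k) :
    HasLog (Metric.sphere (0 : EuclideanSpace ℝ (Fin (k + 1))) 1) := by
  let E := EuclideanSpace ℝ (Fin (k + 1))
  have hfin : Fact (Module.finrank ℝ E = k + 1) := ⟨by simp [E]⟩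
  have hne : ∃ v : E, v ∈ Metric.sphere (0 : E) 1 := ⟨EuclideanSpace.single 0 1, by simp [E]⟩
  obtain ⟨v0, hv0⟩ := hne
  let v : Metric.sphere (0 : E) 1 := ⟨v0, hv0⟩
  have hvn : v ≠ -v := by
    intro h
    have h1 : (v : E) = -(v : E) := congrArg Subtype.val h
    have h2 : (v : E) = 0 := by
      have h4 : (2 : ℝ) • (v : E) = 0 := by
        rw [two_smul]
        nth_rewrite 2 [h1]
        exact add_neg_cancel _
      exact (smul_eq_zero.1 h4).resolve_left two_ne_zero
    have h3 := norm_eq_of_mem_sphere v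
    rw [h2, norm_zero] at h3
    exact zero_ne_one h3
  -- a third point
  have hdim : Module.finrank ℝ (ℝ ∙ (v : E))ᗮ = k := by
    have h0 : (v : E) ≠ 0 := by
      intro h
      have h3 := norm_eq_of_mem_sphere v
      rw [h, norm_zero] at h3
      exact zero_ne_one h3
    exact Submodule.finrank_orthogonal_span_singleton (n := k) h0
  have hrank : 1 < Module.rank ℝ (ℝ ∙ (v : E))ᗮ := by
    rw [← Module.finrank_eq_rank, hdim]
    exact_mod_cast (by omega : 1 < k)
  let e := stereographic (norm_eq_of_mem_sphere v)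
  have hs : e.source = {v}ᶜ := stereographic_source _
  have ht : e.target = univ := stereographic_target _
  have he0 : e (-v) = 0 := by
    have h1 := stereographic_neg_apply (-v)
    simpa [e] using h1
  have himg : ({v}ᶜ ∩ {-v}ᶜ : Set (Metric.sphere (0 : E) 1)) = e.symm '' {0}ᶜ := by
    ext x
    constructor
    · rintro ⟨hx1, hx2⟩
      refine ⟨e x, ?_, e.left_inv (by rw [hs]; exact hx1)⟩
      intro h
      apply hx2
      have h1 : e x = e (-v) := by rw [he0]; exact h
      exact e.injOn (by rw [hs]; exact hx1) (by rw [hs]; exact fun h => hvn h.symm) h1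
    · rintro ⟨y, hy, rfl⟩
      have h1 : e.symm y ∈ e.source := e.map_target (by rw [ht]; trivial)
      refine ⟨by rw [hs] at h1; exact h1, ?_⟩
      intro h
      apply hy
      have h2 : e (e.symm y) = e (-v) := congrArg e h
      rw [e.right_inv (by rw [ht]; trivial), he0] at h2
      exact h2
  have hconn : IsConnected ({0}ᶜ : Set (ℝ ∙ (v : E))ᗮ) := isConnected_compl_singleton_of_one_lt_rank hrank 0
  have hpc : IsPreconnected ({v}ᶜ ∩ {-v}ᶜ : Set (Metric.sphere (0 : E) 1)) := by
    rw [himg]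
    refine hconn.isPreconnected.image _ (e.continuousOn_symm.mono ?_)
    rw [ht]
    exact subset_univ _
  obtain ⟨y, hy⟩ := hconn.nonempty
  have hpm : e.symm y ∈ ({v}ᶜ ∩ {-v}ᶜ : Set (Metric.sphere (0 : E) 1)) := by
    rw [himg]
    exact ⟨y, hy, rfl⟩
  refine hasLog_union ({v}ᶜ) ({-v}ᶜ) isOpen_compl_singleton isOpen_compl_singleton ?_ hpc
    (e.symm y) hpm (hasLog_compl v) (hasLog_compl (-v))
  ext x
  simp only [mem_union, mem_compl_iff, mem_singleton_iff, mem_univ, iff_true]
  by_cases h1 : x = v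
  · right
    intro h2
    exact hvn (h1.symm.trans h2)
  · exact Or.inl h1

end sphere

/-- **Splitting by a closed set with logarithms.** Let `S` be a closed subset of the space `X`, where
both `S` and `X` have logarithms, and let `f` be a continuous function which does not vanish on the
closed set `A ⊇ S`, where `X = A ∪ B`, `A ∩ B = S`, `B` closed. Then `f` has a logarithm on `A`. -/
theorem log_side {X : Type} [TopologicalSpace X] [NormalSpace X] (hX : HasLog X) (S A B : Set X)
    (hSc : IsClosed S) (hS : HasLog S) (hA : IsClosed A) (hB : IsClosed B) (hAB : A ∪ B = univ)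
    (hI : A ∩ B = S) (f : X → ℂ) (hf : ContinuousOn f A) (hf0 : ∀ x ∈ A, f x ≠ 0) :
    ∃ g : C(X, ℂ), ∀ x ∈ A, Complex.exp (g x) = f x := by
  classical
  have hSA : S ⊆ A := by rw [← hI]; exact inter_subset_left
  let fS : C(S, ℂ) := ⟨fun x => f x, (hf.mono hSA).domRestrict⟩
  obtain ⟨l, hl⟩ := hS fS (fun x => hf0 _ (hSA x.2))
  obtain ⟨L, hL⟩ := ContinuousMap.exists_restrict_eq hSc l
  have hLS : ∀ x ∈ S, Complex.exp (L x) = f x := by
    intro x hx
    have h1 : L x = l ⟨x, hx⟩ := by rw [← hL]; rfl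
    rw [h1]
    exact hl ⟨x, hx⟩
  let F : X → ℂ := fun x => if x ∈ A then f x else Complex.exp (L x)
  have hFA : EqOn F f A := fun x hx => if_pos hx
  have hFB : EqOn F (fun x => Complex.exp (L x)) B := by
    intro x hx
    by_cases hxA : x ∈ A
    · simp only [F]
      rw [if_pos hxA]
      exact (hLS x (by rw [← hI]; exact ⟨hxA, hx⟩)).symm
    · exact if_neg hxA
  have hFc : Continuous F := by
    rw [← continuousOn_univ, ← hAB]
    exact (hf.congr hFA).union_of_isClosed
      (((Complex.continuous_exp.comp L.continuous).continuousOn).congr hFB) hA hB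
  have hF0 : ∀ x, F x ≠ 0 := by
    intro x
    by_cases hxA : x ∈ A
    · rw [hFA hxA]
      exact hf0 x hxA
    · simp only [F]
      rw [if_neg hxA]
      exact Complex.exp_ne_zero _
  obtain ⟨g, hg⟩ := hX ⟨F, hFc⟩ hF0
  exact ⟨g, fun x hx => (hg x).trans (hFA hx)⟩

end Pool.Agent.Helper19.NS
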