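import Pool.Agent.AltGenus.HopfLink
import Pool.Agent.Helper19.NS.Log

/-!
# Unions of Hopf fibres are non-split
-/

set_option autoImplicit false

open Set Topology

namespace Pool.Agent.Helper19.NS

open AltGenus

/-- The link `K` is non-split: for every topologically embedded 2-sphere `S` in `S³` disjoint from `K`, the whole
link lies in one connected component of `S³ ∖ S`. -/
def NonSplit {n : ℕ} (K : Link n) : Prop :=
  ∀ S : Set S3, Nonempty (S ≃ₜ Metric.sphere (0 : EuclideanSpace ℝ (Fin 3)) 1) → Disjoint S K.carrier →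
    ∀ p ∈ K.carrier, ∀ q ∈ K.carrier, q ∈ connectedComponentIn Sᶜ p

/-- the function vanishing on the fibre with radii `r`, `s` -/
noncomputable def fib (r s : ℝ) (v : EuclideanSpace ℝ (Fin 4)) : ℂ :=
  ((s * v 0 - r * v 3 : ℝ) : ℂ) + ((s * v 1 - r * v 2 : ℝ) : ℂ) * Complex.I

theorem fib_zero {r s : ℝ} (h : r ^ 2 + s ^ 2 = 1) {v : EuclideanSpace ℝ (Fin 4)} (hv : ‖v‖ = 1)
    (h0 : fib r s v = 0) : ∃ t : ℝ, v = hopfCurve r s t := by
  have hre := congrArg Complex.re h0
  have him := congrArg Complex.im h0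
  simp only [fib, Complex.add_re, Complex.ofReal_re, Complex.mul_re, Complex.I_re, mul_zero, Complex.ofReal_im,
    Complex.I_im, mul_one, sub_self, add_zero, Complex.zero_re, Complex.add_im, Complex.mul_im,
    zero_add, Complex.zero_im] at hre him
  have hn : v 0 ^ 2 + v 1 ^ 2 + v 2 ^ 2 + v 3 ^ 2 = 1 := by
    have h1 := EuclideanSpace.real_norm_sq_eq v
    rw [hv, Fin.sum_univ_four] at h1
    linarith
  set a := r * v 0 + s * v 3 with ha
  set b := r * v 1 + s * v 2 with hb
  have h0' : v 0 = r * a := by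
    rw [ha]
    linear_combination (-(v 0)) * h + s * hre
  have h3' : v 3 = s * a := by
    rw [ha]
    linear_combination (-(v 3)) * h - r * hre
  have h1' : v 1 = r * b := by
    rw [hb]
    linear_combination (-(v 1)) * h + s * him
  have h2' : v 2 = s * b := by
    rw [hb]
    linear_combination (-(v 2)) * h - r * him
  have hab : a ^ 2 + b ^ 2 = 1 := by
    rw [h0', h1', h2', h3'] at hn
    linear_combination hn - (a ^ 2 + b ^ 2) * h
  obtain ⟨θ, hθ1, hθ2⟩ : ∃ θ : ℝ, a = Real.cos θ ∧ b = Real.sin θ := by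
    refine ⟨Complex.arg (⟨a, b⟩ : ℂ), ?_, ?_⟩
    · have hz : ‖(⟨a, b⟩ : ℂ)‖ = 1 := by
        rw [Complex.norm_def, Complex.normSq_mk]
        rw [show a * a + b * b = 1 by linarith [hab]]
        exact Real.sqrt_one
      have hne : (⟨a, b⟩ : ℂ) ≠ 0 := by
        intro h
        rw [h, norm_zero] at hz
        exact zero_ne_one hz
      rw [Complex.cos_arg hne, hz, div_one]
    · have hz : ‖(⟨a, b⟩ : ℂ)‖ = 1 := by
        rw [Complex.norm_def, Complex.normSq_mk]
        rw [show a * a + b * b = 1 by linarith [hab]]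
        exact Real.sqrt_one
      rw [Complex.sin_arg, hz, div_one]
  refine ⟨θ / (2 * Real.pi), ?_⟩
  have ht : 2 * Real.pi * (θ / (2 * Real.pi)) = θ := by
    field_simp
  have hc := X_hopf_fields.hopf_coord r s (θ / (2 * Real.pi))
  rw [ht] at hc
  ext i
  fin_cases i
  · exact (h0'.trans (by rw [hθ1])).trans hc.1.symm
  · exact (h1'.trans (by rw [hθ2])).trans hc.2.1.symm
  · exact (h2'.trans (by rw [hθ2])).trans hc.2.2.1.symm
  · exact (h3'.trans (by rw [hθ1])).trans hc.2.2.2.symm

theorem fib_curve (r s r' s' t : ℝ) :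
    fib r s (hopfCurve r' s' t) = ((s * r' - r * s' : ℝ) : ℂ) * Complex.exp (2 * Real.pi * Complex.I * t) := by
  obtain ⟨h0, h1, h2, h3⟩ := X_hopf_fields.hopf_coord r' s' t
  have he : Complex.exp (2 * Real.pi * Complex.I * t) =
      ((Real.cos (2 * Real.pi * t) : ℝ) : ℂ) + ((Real.sin (2 * Real.pi * t) : ℝ) : ℂ) * Complex.I := by
    rw [show (2 * Real.pi * Complex.I * t : ℂ) = ((2 * Real.pi * t : ℝ) : ℂ) * Complex.I by push_cast; ring,
      Complex.exp_mul_I, Complex.ofReal_cos, Complex.ofReal_sin]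
  rw [he]
  unfold fib
  rw [h0, h1, h2, h3]
  push_cast
  ring

theorem fib_continuous (r s : ℝ) : Continuous (fib r s) := by
  unfold fib
  fun_prop

instance : LocallyConnectedSpace S3 := by
  have : Fact (Module.finrank ℝ (EuclideanSpace ℝ (Fin 4)) = 3 + 1) := ⟨by simp⟩
  exact ChartedSpace.locallyConnectedSpace (EuclideanSpace ℝ (Fin 3)) S3

/-- unions of Hopf fibres are non-split -/
theorem hopf_nonSplit (n : ℕ) : NonSplit (hopfLink n) := by
  intro S ⟨e⟩ hd p hp q hq
  obtain ⟨i, t₀, rfl⟩ := mem_iUnion.1 hp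
  obtain ⟨j, t₁, rfl⟩ := mem_iUnion.1 hq
  by_contra hcon
  -- `S` is closed
  have hcomp : IsCompact S := by
    have : CompactSpace S := e.symm.compactSpace
    exact isCompact_iff_compactSpace.2 this
  have hSc : IsClosed S := hcomp.isClosed
  -- the curves
  have hγc : ∀ i, Continuous ((hopfLink n).γ i) := fun i =>
    Continuous.subtype_mk ((hopfLink n).smooth i).continuous _
  have hγS : ∀ i t, (hopfLink n).γ i t ∈ Sᶜ := fun i t hmem =>
    (Set.disjoint_left.1 hd) hmem (mem_iUnion.2 ⟨i, t, rfl⟩)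
  have hconn : ∀ i, IsPreconnected (range ((hopfLink n).γ i)) := fun i =>
    isPreconnected_range (hγc i)
  set C := connectedComponentIn Sᶜ ((hopfLink n).γ i t₀) with hC
  have hCS : C ⊆ Sᶜ := connectedComponentIn_subset _ _
  have hiC : range ((hopfLink n).γ i) ⊆ C :=
    (hconn i).subset_connectedComponentIn ⟨t₀, rfl⟩ (by rintro _ ⟨t, rfl⟩; exact hγS i t)
  have hjC : ∀ t, (hopfLink n).γ j t ∉ C := by
    intro t ht
    apply hcon
    have h1 : range ((hopfLink n).γ j) ⊆ connectedComponentIn Sᶜ ((hopfLink n).γ j t) :=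
      (hconn j).subset_connectedComponentIn ⟨t, rfl⟩ (by rintro _ ⟨t', rfl⟩; exact hγS j t')
    have h2 : connectedComponentIn Sᶜ ((hopfLink n).γ j t) = C := (connectedComponentIn_eq ht).symm
    rw [h2] at h1
    exact h1 ⟨t₁, rfl⟩
  have hCo : IsOpen C := hSc.isOpen_compl.connectedComponentIn
  have hA : IsClosed (C ∪ S) := by
    rw [← isOpen_compl_iff, isOpen_iff_mem_nhds]
    intro x hx
    have hxS : x ∈ Sᶜ := fun h => hx (Or.inr h)
    have hxo : IsOpen (connectedComponentIn Sᶜ x) := hSc.isOpen_compl.connectedComponentIn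
    refine Filter.mem_of_superset (hxo.mem_nhds (mem_connectedComponentIn hxS)) ?_
    intro y hy hyCS
    rcases hyCS with hyC | hyS
    · apply hx
      left
      have h1 : connectedComponentIn Sᶜ x = connectedComponentIn Sᶜ y := connectedComponentIn_eq hy
      have h2 : C = connectedComponentIn Sᶜ y := connectedComponentIn_eq hyC
      rw [h2, ← h1]
      exact mem_connectedComponentIn hxS
    · exact connectedComponentIn_subset _ _ hy hyS
  have hI : (C ∪ S) ∩ Cᶜ = S := by
    ext x
    constructor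
    · rintro ⟨h1 | h1, h2⟩
      · exact absurd h1 h2
      · exact h1
    · intro h
      exact ⟨Or.inr h, fun h' => hCS h' h⟩
  -- radii
  obtain ⟨-, r, s, -, -, -, hrs, -, hj, -⟩ := X_hopf_fields.hopf_param n j
  obtain ⟨-, r', s', -, -, -, -, -, hi, -⟩ := X_hopf_fields.hopf_param n i
  have hf0 : ∀ x ∈ C ∪ S, fib r s (x : EuclideanSpace ℝ (Fin 4)) ≠ 0 := by
    intro x hx h0
    obtain ⟨t, ht⟩ := fib_zero hrs (norm_eq_of_mem_sphere x) h0
    have hxe : x = (hopfLink n).γ j t := by
      apply Subtype.ext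
      rw [ht, ← hj t]
      rfl
    rcases hx with hx | hx
    · rw [hxe] at hx
      exact hjC t hx
    · rw [hxe] at hx
      exact hγS j t hx
  obtain ⟨g, hg⟩ := log_side (hasLog_sphere 3 (by norm_num)) S (C ∪ S) Cᶜ hSc
    ((hasLog_sphere 2 le_rfl).of_homeo e) hA hCo.isClosed_compl
    (by rw [union_right_comm, union_compl_self, univ_union]) hI
    (fun x => fib r s (x : EuclideanSpace ℝ (Fin 4)))
    ((fib_continuous r s).comp continuous_subtype_val).continuousOn hf0
  have hgt : ∀ t, Complex.exp (g ((hopfLink n).γ i t)) =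
      ((s * r' - r * s' : ℝ) : ℂ) * Complex.exp (2 * Real.pi * Complex.I * t) := by
    intro t
    rw [hg _ (Or.inl (hiC ⟨t, rfl⟩)), ← fib_curve r s r' s' t, ← hi t]
    rfl
  have hkey := log_unique (X := ℝ) (g := fun t => g ((hopfLink n).γ i t))
    (h := fun t : ℝ => g ((hopfLink n).γ i 0) + 2 * Real.pi * Complex.I * t)
    (g.continuous.comp (hγc i)) (by fun_prop) (by
      intro t
      rw [Complex.exp_add, hgt t, hgt 0]
      simp) 0 (by simp)
  have h1 := congrFun hkey 1
  have h2 : (hopfLink n).γ i 1 = (hopfLink n).γ i 0 := by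
    have := (hopfLink n).periodic i 0
    rw [zero_add] at this
    exact this
  simp only [h2] at h1
  have h3 : (2 * Real.pi * Complex.I * (1 : ℝ) : ℂ) = 0 := by
    linear_combination -h1
  have h4 : (Real.pi : ℂ) ≠ 0 := by exact_mod_cast Real.pi_ne_zero
  simp [Complex.I_ne_zero, h4] at h3

end Pool.Agent.Helper19.NS
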